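import Mathlib

/-!
# Orthogonal lifting: linear algebra (helper150)
-/

set_option autoImplicit false

namespace Pool.Agent.Y150.Lift

/-- A functional which vanishes on the kernel of a form which is determined by finitely many
vectors is represented by a vector. -/
lemma rep {U : Type*} [AddCommGroup U] [Module ℚ U] (κ : U →ₗ[ℚ] U →ₗ[ℚ] ℚ)
    (hs : ∀ x y, κ x y = κ y x) {N : ℕ} (e : Fin N → U)
    (he : ∀ x, (∀ i, κ x (e i) = 0) → ∀ y, κ x y = 0) (lam : U →ₗ[ℚ] ℚ)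
    (hl : ∀ x, (∀ y, κ x y = 0) → lam x = 0) : ∃ u, ∀ x, lam x = κ x u := by
  have h1 : lam ∈ Submodule.span ℚ (Set.range fun i => κ (e i)) := by
    apply mem_span_of_iInf_ker_le_ker
    intro x hx
    rw [Submodule.mem_iInf] at hx
    rw [LinearMap.mem_ker]
    apply hl
    apply he
    intro i
    rw [hs]
    exact LinearMap.mem_ker.1 (hx i)
  obtain ⟨a, ha⟩ := (Submodule.mem_span_range_iff_exists_fun ℚ).1 h1
  refine ⟨∑ i, a i • e i, fun x => ?_⟩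
  rw [← ha, LinearMap.sum_apply, map_sum]
  refine Finset.sum_congr rfl (fun i _ => ?_)
  rw [LinearMap.smul_apply, map_smul, hs]

lemma rep_fin {U : Type*} [AddCommGroup U] [Module ℚ U] [FiniteDimensional ℚ U]
    (κ : U →ₗ[ℚ] U →ₗ[ℚ] ℚ) (hs : ∀ x y, κ x y = κ y x) (lam : U →ₗ[ℚ] ℚ)
    (hl : ∀ x, (∀ y, κ x y = 0) → lam x = 0) : ∃ u, ∀ x, lam x = κ x u := by
  refine rep κ hs (Module.finBasis ℚ U) (fun x hx y => ?_) lam hl
  have h1 : κ x = 0 := (Module.finBasis ℚ U).ext (fun i => by simpa using hx i)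
  rw [h1, LinearMap.zero_apply]

/-- The radical of the Hodge index form on the image of the restriction map. -/
lemma core {A0 A1 B0 B1 : Type*} [AddCommGroup A0] [Module ℚ A0] [AddCommGroup A1] [Module ℚ A1]
    [AddCommGroup B0] [Module ℚ B0] [AddCommGroup B1] [Module ℚ B1] [FiniteDimensional ℚ B0]
    (qA : A1 →ₗ[ℚ] A1 →ₗ[ℚ] ℚ) (qB : B1 →ₗ[ℚ] B1 →ₗ[ℚ] ℚ) (lA : A0 →ₗ[ℚ] A1)
    (lB : B0 →ₗ[ℚ] B1) (ρ0 : A0 →ₗ[ℚ] B0) (ρ1 : A1 →ₗ[ℚ] B1) (γ : B0 →ₗ[ℚ] A1)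
    (symA : ∀ x y, qA x y = qA y x) (symB : ∀ x y, qB x y = qB y x)
    (hρ : ∀ s, ρ1 (lA s) = lB (ρ0 s)) (hγ : ∀ t a, qA (γ t) a = qB (lB t) (ρ1 a))
    (hrr : ∀ t a, qB (ρ1 (γ t)) (ρ1 a) = 0)
    (hA : ∀ a, (∀ s, qA a (lA s) = 0) → a ≠ 0 → qA a a < 0)
    (hB : ∀ b, (∀ t, qB b (lB t) = 0) → b ≠ 0 → qB b b < 0)
    (hB0 : ∀ t, t ≠ 0 → 0 < qB (lB t) (lB t)) (v : A1) (hv : ∀ u, qB (ρ1 v) (ρ1 u) = 0) :
    ∃ t, ρ1 (v - γ t) = 0 := by
  -- the elements of `B0` orthogonal to the image of `A0`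
  set Kt : Submodule ℚ B0 :=
    { carrier := {t | ∀ s, qB (lB t) (lB (ρ0 s)) = 0}
      add_mem' := by
        intro a b ha hb s
        simp only [Set.mem_setOf_eq] at ha hb
        rw [map_add, map_add, LinearMap.add_apply, ha s, hb s, add_zero]
      zero_mem' := by intro s; simp
      smul_mem' := by
        intro c x hx s
        simp only [Set.mem_setOf_eq] at hx
        rw [map_smul, map_smul, LinearMap.smul_apply, hx s, smul_zero] } with hKt
  have hKm : ∀ t, t ∈ Kt ↔ ∀ s, qB (lB t) (lB (ρ0 s)) = 0 := fun t => Iff.rfl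
  -- the form on `Kt`
  have hneg : ∀ t ∈ Kt, γ t ≠ 0 → qA (γ t) (γ t) < 0 := by
    intro t ht h0
    refine hA _ (fun s => ?_) h0
    rw [hγ, hρ]
    exact (hKm t).1 ht s
  obtain ⟨t1, ht1⟩ := rep_fin
    ((qA.compl₁₂ (γ ∘ₗ Kt.subtype) (γ ∘ₗ Kt.subtype)) : Kt →ₗ[ℚ] Kt →ₗ[ℚ] ℚ)
    (fun x y => by simp only [LinearMap.compl₁₂_apply]; exact symA _ _)
    (qA v ∘ₗ γ ∘ₗ Kt.subtype) (by
      intro x hx
      have h1 := hx x
      rw [LinearMap.compl₁₂_apply] at h1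
      have h2 : γ (x : B0) = 0 := by
        by_contra h3
        have := hneg _ x.2 h3
        exact absurd h1 (ne_of_lt this)
      simp only [LinearMap.comp_apply, Submodule.subtype_apply, h2, map_zero])
  refine ⟨(t1 : B0), ?_⟩
  set v' := v - γ (t1 : B0) with hv'
  have h1 : ∀ t ∈ Kt, qA v' (γ t) = 0 := by
    intro t ht
    have h2 := ht1 ⟨t, ht⟩
    simp only [LinearMap.comp_apply, Submodule.subtype_apply, LinearMap.compl₁₂_apply] at h2
    rw [hv', map_sub, LinearMap.sub_apply, h2, symA (γ t), sub_self]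
  have h2 : ∀ u, qB (ρ1 v') (ρ1 u) = 0 := by
    intro u
    rw [hv', map_sub, map_sub, LinearMap.sub_apply, hv, hrr, sub_zero]
  -- the component along `lB`
  obtain ⟨t2, ht2⟩ := rep_fin ((qB.compl₁₂ lB lB) : B0 →ₗ[ℚ] B0 →ₗ[ℚ] ℚ)
    (fun x y => by simp only [LinearMap.compl₁₂_apply]; exact symB _ _)
    (qB (ρ1 v') ∘ₗ lB) (by
      intro x hx
      have h3 := hx x
      rw [LinearMap.compl₁₂_apply] at h3
      have h4 : x = 0 := by
        by_contra h5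
        exact absurd h3 (ne_of_gt (hB0 x h5))
      rw [h4, map_zero])
  simp only [LinearMap.comp_apply, LinearMap.compl₁₂_apply] at ht2
  have h3 : t2 ∈ Kt := by
    rw [hKm]
    intro s
    rw [symB, ← ht2, ← hρ]
    exact h2 _
  have h4 : qB (lB t2) (lB t2) = 0 := by
    rw [← ht2, symB, ← hγ, symA]
    exact h1 _ h3
  have h5 : t2 = 0 := by
    by_contra h6
    exact absurd h4 (ne_of_gt (hB0 _ h6))
  by_contra h6
  have h7 := hB (ρ1 v') (fun t => by rw [ht2, h5, map_zero, map_zero]) h6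
  rw [h2] at h7
  exact lt_irrefl _ h7

end Pool.Agent.Y150.Lift
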