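import Pool.Agent.Y150.Lift.Fib
import Pool.Agent.Y150.Lift.LA

/-!
# Orthogonal lifting: the local problem (helper150)
-/

set_option autoImplicit false
set_option linter.unusedSectionVars false

open CategoryTheory AlgebraicGeometry

universe u v w

namespace Pool.Agent.Y150.Lift

open Pool.Agent.H914 Pool.Agent.H914.VarClass Pool.Agent.H914.VarClass.Obj
  Pool.Agent.H914.WeilCohomology SpecialFibre

attribute [local instance] modQ

/-- A functional which vanishes on the left kernel of a form is represented by a vector. -/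
lemma rep2 {U T : Type*} [AddCommGroup U] [Module ℚ U] [AddCommGroup T] [Module ℚ T]
    (Q : U →ₗ[ℚ] T →ₗ[ℚ] ℚ) {ι : Type*} [Fintype ι] (e : ι → T)
    (he : ∀ x, (∀ i, Q x (e i) = 0) → ∀ y, Q x y = 0) (lam : U →ₗ[ℚ] ℚ)
    (hl : ∀ x, (∀ y, Q x y = 0) → lam x = 0) : ∃ u, ∀ x, lam x = Q x u := by
  have h1 : lam ∈ Submodule.span ℚ (Set.range fun i => Q.flip (e i)) := by
    apply mem_span_of_iInf_ker_le_ker
    intro x hx
    rw [Submodule.mem_iInf] at hx
    rw [LinearMap.mem_ker]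
    apply hl
    apply he
    intro i
    exact LinearMap.mem_ker.1 (hx i)
  obtain ⟨a, ha⟩ := (Submodule.mem_span_range_iff_exists_fun ℚ).1 h1
  refine ⟨∑ i, a i • e i, fun x => ?_⟩
  rw [← ha, LinearMap.sum_apply, map_sum]
  refine Finset.sum_congr rfl (fun i _ => ?_)
  rw [LinearMap.smul_apply, map_smul, LinearMap.flip_apply]

variable {k : Type u} [Field k] {𝒱 : VarClass k} {ops : CycleOps 𝒱}
  {W : WeilCohomology.{u, v} ops} {d : ℕ} {F : SpecialFibre 𝒱 d}

/-- The Gysin map on cycles. -/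
noncomputable def gamC (ops : CycleOps 𝒱) (F : SpecialFibre 𝒱 d) (y : ∀ t, (F.Z t).Cycles) :
    F.Fam :=
  ∑ t, (F.single (F.b t) (ops.push (F.q t) (y t)) - F.single (F.a t) (ops.push (F.p t) (y t)))

lemma clF_gamC (y : ∀ t, (F.Z t).Cycles) :
    F.clF W (gamC ops F y) = F.gamH W (fun t => W.cl _ (y t)) := by
  rw [gamC, map_sum, gamH_apply]
  refine Finset.sum_congr rfl (fun t _ => ?_)
  rw [map_sub, clF_single, clF_single, W.cl_push, W.cl_push]

lemma gamC_isFam {e : ℕ} {y : ∀ t, (F.Z t).Cycles} (hy : ∀ t, (F.Z t).IsCyc e (y t)) :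
    F.IsFam (e + 1) (gamC ops F y) := by
  rw [← mem_fam, gamC]
  refine Submodule.sum_mem _ (fun t _ => Submodule.sub_mem _ ?_ ?_)
  · refine single_isFam (ops.push_mem _ (hy t) ?_)
    have h1 := F.dim_Y (F.b t)
    have h2 := F.dim_Z t
    omega
  · refine single_isFam (ops.push_mem _ (hy t) ?_)
    have h1 := F.dim_Y (F.a t)
    have h2 := F.dim_Z t
    omega

lemma toU_gamC {M : LocalModel.{w}} {φ : FibreMaps F M} {j e : ℕ}
    (hS : IsSemistable W F M φ j e) {y : ∀ t, (F.Z t).Cycles}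
    (hy : ∀ t, (F.Z t).IsCyc e (y t)) : φ.toU (gamC ops F y) = 0 := by
  rw [gamC, map_sum]
  refine Finset.sum_eq_zero (fun t _ => ?_)
  rw [map_sub, hS.glue t (y t) (hy t), sub_self]

/-- **The local problem.** -/
lemma solve {M : LocalModel.{w}} {φ : FibreMaps F M} {j e : ℕ}
    (hS : IsSemistable W F M φ j e) (T0 : Submodule ℚ F.Fam) (hT0 : T0 ≤ F.fam j)
    (H : ∀ z, F.IsFam (e + 1) z →
      (∀ u ∈ T0, fbil W F.Z (F.rhoH W (F.clF W u)) (F.rhoH W (F.clF W z)) = 0) →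
      ∃ y : ∀ t, (F.Z t).Cycles, (∀ t, (F.Z t).IsCyc e (y t)) ∧
        F.rhoH W (F.clF W z - F.gamH W (fun t => W.cl _ (y t))) = 0)
    (x : M.C) (hx : M.res x ∈ M.triv) :
    ∃ u, F.IsFam j u ∧ ∀ z, F.IsFam (e + 1) z → M.pair (x + φ.toC u) (φ.toU z) = 0 := by
  obtain ⟨ret, hret⟩ := exists_ret W.K
  -- the form
  let Q : F.fam (e + 1) →ₗ[ℚ] T0 →ₗ[ℚ] ℚ :=
    LinearMap.mk₂ ℚ (fun z u => ret (fbil W F.Z (F.rhoH W (F.clF W (u : F.Fam)))
        (F.rhoH W (F.clF W (z : F.Fam)))))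
      (fun z z' u => by simp only [Submodule.coe_add, map_add])
      (fun c z u => by
        rw [Submodule.coe_smul, clF_smul, map_smul, map_smul, smul_eq_mul, smul_eq_mul,
          ← Rat.smul_def, map_smul, smul_eq_mul])
      (fun z u u' => by simp only [Submodule.coe_add, map_add, LinearMap.add_apply])
      (fun c z u => by
        rw [Submodule.coe_smul, clF_smul, map_smul, map_smul, LinearMap.smul_apply, smul_eq_mul,
          smul_eq_mul, ← Rat.smul_def, map_smul, smul_eq_mul])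
  have hQ : ∀ z u, Q z u = ret (fbil W F.Z (F.rhoH W (F.clF W (u : F.Fam)))
        (F.rhoH W (F.clF W (z : F.Fam)))) := fun z u => rfl
  have hQform : ∀ (z : F.fam (e + 1)) (u : T0), F.form ops (u : F.Fam) (z : F.Fam) = Q z u := by
    intro z u
    rw [hQ, ← form_eq (hT0 u.2) z.2 (by have := hS.sum_eq; omega), hret]
  have hQ0 : ∀ (z : F.fam (e + 1)) (u : T0), Q z u = 0 → fbil W F.Z (F.rhoH W (F.clF W (u : F.Fam)))
        (F.rhoH W (F.clF W (z : F.Fam))) = 0 := by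
    intro z u h
    rw [← form_eq (hT0 u.2) z.2 (by have := hS.sum_eq; omega), hQform, h, Rat.cast_zero]
  -- the functional
  let lam : F.fam (e + 1) →ₗ[ℚ] ℚ :=
    M.pair x ∘ₗ (φ.toU.toRatLinearMap) ∘ₗ (F.fam (e + 1)).subtype
  have hlam : ∀ z, lam z = M.pair x (φ.toU (z : F.Fam)) := fun z => rfl
  -- finitely many vectors
  have hfg : (Submodule.span W.K (Set.range fun u : T0 => F.clF W (u : F.Fam))).FG :=
    Submodule.FG.of_finite
  rw [Submodule.fg_span_iff_fg_span_finset_subset] at hfg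
  obtain ⟨S, hS1, hS2⟩ := hfg
  choose e0 he0 using fun i : S => hS1 i.2
  obtain ⟨u, hu⟩ := rep2 Q e0 (by
      intro z hz u
      have h1 : F.clF W (u : F.Fam) ∈ Submodule.span W.K (S : Set (∀ m, W.H (F.Y m))) := by
        rw [← hS2]
        exact Submodule.subset_span ⟨u, rfl⟩
      have h2 : ∀ a ∈ Submodule.span W.K (S : Set (∀ m, W.H (F.Y m))),
          fbil W F.Z (F.rhoH W a) (F.rhoH W (F.clF W (z : F.Fam))) = 0 := by
        intro a ha
        induction ha using Submodule.span_induction with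
        | mem a ha =>
          have h3 := hQ0 _ _ (hz ⟨a, ha⟩)
          have h4 : F.clF W (e0 ⟨a, ha⟩ : F.Fam) = a := he0 ⟨a, ha⟩
          rw [h4] at h3
          exact h3
        | zero => simp
        | add a b _ _ h3 h4 => rw [map_add, map_add, LinearMap.add_apply, h3, h4, add_zero]
        | smul c a _ h3 => rw [map_smul, map_smul, LinearMap.smul_apply, h3, smul_zero]
      rw [hQ, h2 _ h1, map_zero]) lam (by
    intro z hz
    obtain ⟨y, hy, hyz⟩ := H z z.2 (fun u hu => hQ0 z ⟨u, hu⟩ (hz _))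
    rw [hlam]
    have h1 : F.IsFam (e + 1) ((z : F.Fam) - gamC ops F y) := by
      rw [← mem_fam]
      exact Submodule.sub_mem _ z.2 (gamC_isFam hy)
    have h2 := hS.pair_triv x _ hx h1 (fun t => by
      rw [HomTriv, cl_rho, map_sub, clF_gamC, hyz]
      rfl)
    rw [map_sub, toU_gamC hS hy, sub_zero] at h2
    exact h2)
  refine ⟨u, hT0 u.2, fun z hz => ?_⟩
  have h1 := hu ⟨z, hz⟩
  rw [hlam, ← hQform] at h1
  rw [map_add, LinearMap.add_apply, hS.pair_eq _ _ (hT0 u.2) hz, h1]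
  exact add_neg_cancel _

/-- A linear map as a map over the rational numbers. -/
noncomputable def ql {ι ι' : Type} {X : ι → 𝒱.Obj} {X' : ι' → 𝒱.Obj}
    (f : (∀ i, W.H (X i)) →ₗ[W.K] ∀ i, W.H (X' i)) :
    (∀ i, W.H (X i)) →ₗ[ℚ] ∀ i, W.H (X' i) :=
  f.toAddMonoidHom.toRatLinearMap

lemma ql_apply {ι ι' : Type} {X : ι → 𝒱.Obj} {X' : ι' → 𝒱.Obj}
    (f : (∀ i, W.H (X i)) →ₗ[W.K] ∀ i, W.H (X' i)) (x : ∀ i, W.H (X i)) : ql f x = f x := rfl

/-- **The local problem for 1-cycles.** -/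
lemma solve_one {n : ℕ} (hd : d = n + 3) {M : LocalModel.{w}} {φ : FibreMaps F M}
    (hS : IsSemistable W F M φ (n + 1) 0)
    (hY : ∀ m, HodgeIndex W (F.Y m) (F.D m)) (hZ : ∀ t, HodgeIndex W (F.Z t) (F.E t))
    (x : M.C) (hx : M.res x ∈ M.triv) :
    ∃ u, F.IsFam (n + 1) u ∧ ∀ z, F.IsFam 1 z → M.pair (x + φ.toC u) (φ.toU z) = 0 := by
  obtain ⟨ret, hret⟩ := exists_ret W.K
  have hF := hS.compat
  let T0 : Submodule ℚ F.Fam :=
    { carrier := {u | F.IsFam (n + 1) u ∧ ∃ a ∈ falg W F.Y 1, F.clF W u = (fL W F.Y F.D ^ n) a}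
      add_mem' := by
        rintro u u' ⟨hu, a, ha, hua⟩ ⟨hu', a', ha', hua'⟩
        exact ⟨(F.fam (n + 1)).add_mem hu hu', a + a', Submodule.add_mem _ ha ha',
          by rw [map_add, map_add, hua, hua']⟩
      zero_mem' := ⟨(F.fam (n + 1)).zero_mem, 0, Submodule.zero_mem _, by rw [map_zero, map_zero]⟩
      smul_mem' := by
        rintro c u ⟨hu, a, ha, hua⟩
        refine ⟨(F.fam (n + 1)).smul_mem c hu, c • a, Submodule.smul_mem _ c ha, ?_⟩
        have h1 : c • a = (c : W.K) • a := by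
          funext m
          exact qsmul W c (a m)
        rw [clF_smul, h1, map_smul, hua] }
  have hT0 : ∀ u, u ∈ T0 ↔ F.IsFam (n + 1) u ∧
      ∃ a ∈ falg W F.Y 1, F.clF W u = (fL W F.Y F.D ^ n) a := fun u => Iff.rfl
  have hdY : ∀ m, (F.Y m).dim = (n + 1) + 2 := fun m => by rw [F.dim_Y, hd]
  have hdZ : ∀ t, (F.Z t).dim = n + 2 := fun t => by have := F.dim_Z t; omega
  obtain ⟨HY1, -⟩ := hodge_fam W hret F.isCyc_D hdY hY
  obtain ⟨HZ1, HZ2⟩ := hodge_fam W hret F.isCyc_E hdZ hZ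
  refine solve hS T0 (fun u hu => ((hT0 u).1 hu).1) ?_ x hx
  intro z hz hzu
  have hv : F.clF W z ∈ falg W F.Y 1 := clF_mem hz
  -- classes of divisors times powers of the ample divisor
  have hlift : ∀ a ∈ falg W F.Y 1, ∃ u, F.IsFam (n + 1) u ∧ F.clF W u = (fL W F.Y F.D ^ n) a := by
    intro a ha
    have h1 := falg_L_pow W F.isCyc_D n ha
    rw [add_comm] at h1
    exact exists_clF h1
  -- the class `gam (cst t)`
  have hgam : ∀ s : Fin F.s → ℚ, ∃ y : ∀ t, (F.Z t).Cycles, (∀ t, (F.Z t).IsCyc 0 (y t)) ∧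
      (fun t => W.cl _ (y t)) = cst W F.Z s := by
    intro s
    choose y hy hys using cst_mem W (X := F.Z) s
    exact ⟨y, hy, funext hys⟩
  have hrr : ∀ (s : Fin F.s → ℚ), ∀ a ∈ falg W F.Y 1,
      fbil W F.Z ((fL W F.Z F.E ^ n) (F.rhoH W (F.gamH W (cst W F.Z s)))) (F.rhoH W a) = 0 := by
    intro s a ha
    obtain ⟨u, hu, hua⟩ := hlift a ha
    obtain ⟨y, hy, hys⟩ := hgam s
    have h1 := hS.pair_eq u (gamC ops F y) hu (gamC_isFam hy)
    rw [toU_gamC hS hy, map_zero] at h1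
    have h2 : F.form ops u (gamC ops F y) = 0 := by linarith
    have h3 := form_eq (W := W) hu (gamC_isFam (ops := ops) hy) (by omega)
    rw [h2, Rat.cast_zero, hua, clF_gamC, hys, rho_L_pow hF] at h3
    rw [fbil_L_pow W F.isCyc_E, fbil_comm W (j := 1) (falg_gr W (rho_falg (gam_falg
      (cst_mem W s))))]
    exact h3.symm
  obtain ⟨s, hs⟩ := core (A0 := Fin F.r → ℚ) (A1 := falg W F.Y 1) (B0 := Fin F.s → ℚ)
    (B1 := falg W F.Z 1)
    (qf W ret F.D (n + 1) 1 1) (qf W ret F.E n 1 1)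
    ((ql (fL W F.Y F.D) ∘ₗ cst W F.Y).codRestrict (falg W F.Y 1)
      (fun s => falg_L W F.isCyc_D (cst_mem W s)))
    ((ql (fL W F.Z F.E) ∘ₗ cst W F.Z).codRestrict (falg W F.Z 1)
      (fun s => falg_L W F.isCyc_E (cst_mem W s)))
    (LinearMap.funLeft ℚ ℚ F.b - LinearMap.funLeft ℚ ℚ F.a)
    ((ql (F.rhoH W)).restrict (fun a ha => rho_falg ha))
    ((ql (F.gamH W) ∘ₗ cst W F.Z).codRestrict (falg W F.Y 1) (fun s => gam_falg (cst_mem W s)))
    (by
      rintro ⟨a, ha⟩ ⟨b, hb⟩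
      rw [qf_apply, qf_apply, fbil_L_pow W F.isCyc_D, fbil_comm W (falg_gr W ha)])
    (by
      rintro ⟨a, ha⟩ ⟨b, hb⟩
      rw [qf_apply, qf_apply, fbil_L_pow W F.isCyc_E, fbil_comm W (falg_gr W ha)])
    (by
      intro s
      apply Subtype.ext
      change F.rhoH W (fL W F.Y F.D (cst W F.Y s)) = fL W F.Z F.E (cst W F.Z _)
      rw [rho_L hF, rho_cst]
      rfl)
    (by
      rintro s ⟨a, ha⟩
      change ret (fbil W F.Y ((fL W F.Y F.D ^ (n + 1)) (F.gamH W (cst W F.Z s))) a) =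
        ret (fbil W F.Z ((fL W F.Z F.E ^ n) (fL W F.Z F.E (cst W F.Z s))) (F.rhoH W a))
      rw [← gam_L_pow hF, fbil_gam, pow_succ, Module.End.mul_apply])
    (by
      rintro s ⟨a, ha⟩
      change ret (fbil W F.Z ((fL W F.Z F.E ^ n) (F.rhoH W (F.gamH W (cst W F.Z s))))
        (F.rhoH W a)) = 0
      rw [hrr s a ha, map_zero])
    (by
      rintro ⟨a, ha⟩ h0 hne
      exact HY1 a ha h0 (fun h => hne (Subtype.ext h)))
    (by
      rintro ⟨b, hb⟩ h0 hne
      exact HZ1 b hb h0 (fun h => hne (Subtype.ext h)))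
    (fun s hs => HZ2 s hs)
    ⟨F.clF W z, hv⟩
    (by
      rintro ⟨a, ha⟩
      change ret (fbil W F.Z ((fL W F.Z F.E ^ n) (F.rhoH W (F.clF W z))) (F.rhoH W a)) = 0
      obtain ⟨u, hu, hua⟩ := hlift a ha
      have h1 := hzu u ((hT0 u).2 ⟨hu, a, ha, hua⟩)
      rw [hua, rho_L_pow hF, fbil_L_pow W F.isCyc_E,
        fbil_comm W (falg_gr W (rho_falg ha))] at h1
      rw [h1, map_zero])
  obtain ⟨y, hy, hys⟩ := hgam s
  refine ⟨y, hy, ?_⟩
  have h1 := congrArg Subtype.val hs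
  change F.rhoH W (F.clF W z - F.gamH W (cst W F.Z s)) = 0 at h1
  rw [hys]
  exact h1

end Pool.Agent.Y150.Lift
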