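import Pool.Agent.H914R2.HodgeDefs

/-!
# Orthogonal lifting of homologically trivial cycles: definitions (helper150)
-/

set_option autoImplicit false

open CategoryTheory AlgebraicGeometry

universe u v w

namespace Pool.Agent.Y150.Lift

open Pool.Agent.H914 Pool.Agent.H914.VarClass Pool.Agent.H914.VarClass.Obj
  Pool.Agent.H914.WeilCohomology

/-- The Chow groups (with rational coefficients) in codimension `i` of a regular scheme `𝒳` which is
proper and flat of relative dimension `d` over a discrete valuation ring: `C = Ch^i(𝒳)`,
`G = Ch^i(X)` for the generic fibre `X`, and `U = Ch^(d-i)(𝒳_s)` for the special fibre `𝒳_s` (these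
classes have codimension `d + 1 - i` on `𝒳`). There are given the restriction to the generic fibre,
the intersection numbers of the classes on `𝒳` with the classes in `U`, and the classes on `X` which
are homologically equivalent to zero. -/
structure LocalModel where
  /-- the Chow group of the scheme -/
  C : Type w
  /-- the Chow group of the generic fibre -/
  G : Type w
  /-- the Chow group of the special fibre -/
  U : Type w
  [addC : AddCommGroup C]
  [modC : Module ℚ C]
  [addG : AddCommGroup G]
  [modG : Module ℚ G]
  [addU : AddCommGroup U]
  [modU : Module ℚ U]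
  /-- restriction to the generic fibre -/
  res : C →ₗ[ℚ] G
  /-- the intersection numbers with the classes on the special fibre -/
  pair : C →ₗ[ℚ] U →ₗ[ℚ] ℚ
  /-- the homologically trivial classes on the generic fibre -/
  triv : Set G
  surjective : ∀ g, ∃ x, res x = g

attribute [instance] LocalModel.addC LocalModel.modC LocalModel.addG LocalModel.modG
  LocalModel.addU LocalModel.modU

/-- The data of an alteration `f : 𝒳' → 𝒳`: the inverse images `f^*` on the generic and special
fibres, the direct images `f_*` on the schemes and on the generic fibres, `f_* f^* = deg`, and the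
projection formula (the intersection numbers are multiplied by a constant `c` if the base is
extended). -/
structure Alteration (M' M : LocalModel.{w}) where
  /-- the degree -/
  deg : ℚ
  /-- the constant in the projection formula -/
  c : ℚ
  /-- inverse image on the generic fibre -/
  pull : M.G → M'.G
  /-- inverse image on the special fibre -/
  pullFib : M.U → M'.U
  /-- direct image -/
  push : M'.C → M.C
  /-- direct image on the generic fibre -/
  pushGen : M'.G → M.G
  deg_ne_zero : deg ≠ 0
  pull_triv : ∀ g ∈ M.triv, pull g ∈ M'.triv
  res_push : ∀ x, M.res (push x) = pushGen (M'.res x)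
  push_pull : ∀ g, pushGen (pull g) = deg • g
  pair_push : ∀ x y, M.pair (push x) y = c * M'.pair x (pullFib y)

/-- The Chow groups (with rational coefficients) in codimension `i` of a regular scheme `𝒳` which is
proper and flat over the ring of integers of a number field (or another Dedekind scheme with the set
`P` of closed points), and of its generic fibre `X`; the local models `loc v` over the local rings,
with the localization maps. Classes supported in a fibre over `v` come from `𝒳`. For a class which
is homologically trivial on the generic fibre, the intersection numbers with the classes on the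
fibre at `v` are zero for all but finitely many `v` (they are zero where the fibre is smooth). -/
structure GlobalModel (P : Type) where
  /-- the Chow group of the scheme -/
  C : Type w
  /-- the Chow group of the generic fibre -/
  G : Type w
  [addC : AddCommGroup C]
  [modC : Module ℚ C]
  [addG : AddCommGroup G]
  [modG : Module ℚ G]
  /-- restriction to the generic fibre -/
  res : C →ₗ[ℚ] G
  /-- the homologically trivial classes on the generic fibre -/
  triv : Set G
  /-- the local models -/
  loc : P → LocalModel.{w}
  /-- localization -/
  toLoc : ∀ v, C →ₗ[ℚ] (loc v).C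
  /-- localization on the generic fibre -/
  toLocGen : ∀ v, G →ₗ[ℚ] (loc v).G
  surjective : ∀ g, ∃ x, res x = g
  triv_toLoc : ∀ v, ∀ g ∈ triv, toLocGen v g ∈ (loc v).triv
  res_toLoc : ∀ v x, (loc v).res (toLoc v x) = toLocGen v (res x)
  vertical : ∀ v y, (loc v).res y = 0 → ∃ x, res x = 0 ∧ toLoc v x = y ∧
    ∀ v', v' ≠ v → toLoc v' x = 0
  finite : ∀ x, res x ∈ triv → {v | (loc v).pair (toLoc v x) ≠ 0}.Finite

attribute [instance] GlobalModel.addC GlobalModel.modC GlobalModel.addG GlobalModel.modG

/-- Every homologically trivial class on the generic fibre has a lift which is orthogonal to all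
classes supported in the fibres over closed points. -/
def GlobalModel.HasOrthogonalLifts {P : Type} (X : GlobalModel.{w} P) : Prop :=
  ∀ g ∈ X.triv, ∃ x, X.res x = g ∧ ∀ v, (X.loc v).pair (X.toLoc v x) = 0

/-- The cycle `z` is homologically equivalent to zero. -/
def HomTriv {k : Type u} [Field k] {𝒱 : VarClass k} {ops : CycleOps 𝒱}
    (W : WeilCohomology.{u, v} ops) (X : 𝒱.Obj) (z : X.Cycles) : Prop :=
  W.cl X z = 0

/-- The special fibre of a strictly semistable scheme of relative dimension `d`: the components
`Y m`, smooth of dimension `d`, the components `Z t` of their pairwise intersections, smooth of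
dimension `d - 1`, with the inclusions `p t` and `q t` into the two components `Y (a t)` and
`Y (b t)` containing them, and the restrictions `D m` and `E t` of an ample divisor. -/
structure SpecialFibre {k : Type u} [Field k] (𝒱 : VarClass k) (d : ℕ) where
  /-- the number of the components -/
  r : ℕ
  /-- the number of the components of the pairwise intersections -/
  s : ℕ
  /-- the components -/
  Y : Fin r → 𝒱.Obj
  /-- the components of the pairwise intersections -/
  Z : Fin s → 𝒱.Obj
  /-- the first component containing `Z t` -/
  a : Fin s → Fin r
  /-- the second component containing `Z t` -/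
  b : Fin s → Fin r
  /-- the inclusion into the first component -/
  p : ∀ t, Z t ⟶ Y (a t)
  /-- the inclusion into the second component -/
  q : ∀ t, Z t ⟶ Y (b t)
  /-- the ample divisor on the components -/
  D : ∀ m, (Y m).Cycles
  /-- the ample divisor on the intersections -/
  E : ∀ t, (Z t).Cycles
  dim_Y : ∀ m, (Y m).dim = d
  dim_Z : ∀ t, (Z t).dim + 1 = d
  isCyc_D : ∀ m, (Y m).IsCyc 1 (D m)
  isCyc_E : ∀ t, (Z t).IsCyc 1 (E t)

namespace SpecialFibre

variable {k : Type u} [Field k] {𝒱 : VarClass k} {d : ℕ} (F : SpecialFibre 𝒱 d)
  (ops : CycleOps 𝒱)

/-- Families of cycles on the components. -/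
abbrev Fam : Type u := ∀ m, (F.Y m).Cycles

/-- The cycles of the family have codimension `j`. -/
def IsFam (j : ℕ) (z : F.Fam) : Prop := ∀ m, (F.Y m).IsCyc j (z m)

/-- The restriction map from the families of cycles on the components to the cycles on their
pairwise intersections: the restriction of `z (b t)` minus the restriction of `z (a t)`. -/
noncomputable def rho (z : F.Fam) (t : Fin F.s) : (F.Z t).Cycles :=
  ops.pull (F.q t) (z (F.b t)) - ops.pull (F.p t) (z (F.a t))

/-- The number `∑ deg (ρ(z)_t · ρ(z')_t)`. -/
noncomputable def form (z z' : F.Fam) : ℚ :=
  ∑ t, (F.Z t).V.degCycle (ops.mul (F.rho ops z t) (F.rho ops z' t))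

/-- The restrictions of the ample divisors `D m` to the intersections are the divisors `E t`, up to
homological equivalence. -/
def Compat {ops : CycleOps 𝒱} (W : WeilCohomology.{u, v} ops) : Prop :=
  ∀ t, HomTriv W (F.Z t) (ops.pull (F.p t) (F.D (F.a t)) - F.E t) ∧
    HomTriv W (F.Z t) (ops.pull (F.q t) (F.D (F.b t)) - F.E t)

/-- The cycle `z` on the component `Y m`, as a family of cycles. -/
noncomputable def single (m : Fin F.r) (z : (F.Y m).Cycles) : F.Fam := Pi.single m z

end SpecialFibre

/-- The maps which send a family of cycles of codimension `i - 1` on the components of the special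
fibre to its class in `Ch^i(𝒳)`, and a family of cycles of codimension `d - i` to its class in
`Ch^(d-i)(𝒳_s)`. -/
structure FibreMaps {k : Type u} [Field k] {𝒱 : VarClass k} {d : ℕ} (F : SpecialFibre 𝒱 d)
    (M : LocalModel.{w}) where
  /-- the classes in `Ch^i(𝒳)` -/
  toC : F.Fam →+ M.C
  /-- the classes in `Ch^(d-i)(𝒳_s)` -/
  toU : F.Fam →+ M.U

/-- The scheme with the local model `M` in codimension `i = j + 1 = d - e - 1` is strictly
semistable with the special fibre `F`. The family of cycles `z` on the components has the class zero
on the generic fibre. The intersection number of the families `z` and `z'` is the sum of the numbers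
`- deg (ρ(z)_t · ρ(z')_t)` (self intersection formula). The classes on the special fibre are the
classes of the families of cycles on the components, and a cycle on `Z t` gives the same class as a
cycle on `Y (a t)` and on `Y (b t)`. If a class on `𝒳` is homologically trivial on the generic
fibre, its intersection numbers with the families `z` such that `ρ(z)` is homologically trivial
vanish (these are the families which come from cohomology classes of `𝒳_s`). -/
structure IsSemistable {k : Type u} [Field k] {𝒱 : VarClass k} {ops : CycleOps 𝒱} {d : ℕ}
    (W : WeilCohomology.{u, v} ops) (F : SpecialFibre 𝒱 d) (M : LocalModel.{w})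
    (φ : FibreMaps F M) (j e : ℕ) : Prop where
  sum_eq : j + e + 2 = d
  compat : F.Compat W
  res_toC : ∀ z, F.IsFam j z → M.res (φ.toC z) = 0
  pair_eq : ∀ z z', F.IsFam j z → F.IsFam (e + 1) z' →
    M.pair (φ.toC z) (φ.toU z') = - F.form ops z z'
  span : ∀ y, ∃ z, F.IsFam (e + 1) z ∧ φ.toU z = y
  glue : ∀ t y, (F.Z t).IsCyc e y → φ.toU (F.single _ (ops.push (F.q t) y)) =
    φ.toU (F.single _ (ops.push (F.p t) y))
  pair_triv : ∀ x z, M.res x ∈ M.triv → F.IsFam (e + 1) z →
    (∀ t, HomTriv W (F.Z t) (F.rho ops z t)) → M.pair x (φ.toU z) = 0

/-- The Hodge index theorem for the divisors on the variety `X`, with the ample divisor `D`: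
`D ^ n > 0` for `n = dim X`, and `z · z · D ^ (n - 2) < 0` for all divisors `z` with
`z · D ^ (n - 1) = 0` which are not homologically equivalent to zero. -/
def HodgeIndex {k : Type u} [Field k] {𝒱 : VarClass k} {ops : CycleOps 𝒱}
    (W : WeilCohomology.{u, v} ops) (X : 𝒱.Obj) (D : X.Cycles) : Prop :=
  0 < X.V.degCycle (divPow ops D X.dim X.V.fundCycle) ∧
    ∀ z, X.IsCyc 1 z → X.V.degCycle (divPow ops D (X.dim - 1) z) = 0 → ¬ HomTriv W X z →
      X.V.degCycle (ops.mul z (divPow ops D (X.dim - 2) z)) < 0

/-- The local model `M` of a scheme of relative dimension `d`, in codimension `d - 1`, has an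
alteration by a projective strictly semistable scheme such that the Hodge index theorem holds for
the components of the special fibre and their pairwise intersections. (All schemes have, by the
theorems of de Jong, Deligne, Grothendieck and Segre.) -/
def HasAlteration (d : ℕ) (M : LocalModel.{w}) : Prop :=
  ∃ (k : Type u) (_ : Field k) (𝒱 : VarClass k) (ops : CycleOps 𝒱)
    (W : WeilCohomology.{u, v} ops) (F : SpecialFibre 𝒱 d) (M' : LocalModel.{w})
    (φ : FibreMaps F M'), Nonempty (Alteration M' M) ∧ IsSemistable W F M' φ (d - 2) 0 ∧
      (∀ m, HodgeIndex W (F.Y m) (F.D m)) ∧ ∀ t, HodgeIndex W (F.Z t) (F.E t)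

end Pool.Agent.Y150.Lift
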