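import Pool.Agent.Y150.Lift.Defs
import Pool.Agent.H914R2.CPart

/-!
# Orthogonal lifting: families of varieties (helper150)
-/

set_option autoImplicit false
set_option linter.unusedSectionVars false

open CategoryTheory AlgebraicGeometry

universe u v w

namespace Pool.Agent.Y150.Lift

open Pool.Agent.H914 Pool.Agent.H914.VarClass Pool.Agent.H914.VarClass.Obj
  Pool.Agent.H914.WeilCohomology

variable {k : Type u} [Field k] {𝒱 : VarClass k} {ops : CycleOps 𝒱}
  (W : WeilCohomology.{u, v} ops)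

/-- The rational structure. -/
@[reducible] def modQ (X : 𝒱.Obj) : Module ℚ (W.H X) := Module.compHom _ (algebraMap ℚ W.K)

attribute [local instance] modQ

lemma qsmul {X : 𝒱.Obj} (q : ℚ) (x : W.H X) : q • x = (q : W.K) • x := by
  change (algebraMap ℚ W.K q) • x = _
  rw [eq_ratCast]

/-- A rational retraction of the coefficient field. -/
lemma exists_ret (K : Type*) [Field K] [CharZero K] : ∃ ret : K →ₗ[ℚ] ℚ, ∀ q : ℚ, ret (q : K) = q := by
  obtain ⟨g, hg⟩ := LinearMap.exists_leftInverse_of_injective (Algebra.linearMap ℚ K)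
    (LinearMap.ker_eq_bot.2 (algebraMap ℚ K).injective)
  refine ⟨g, fun q => ?_⟩
  have := congrArg (fun F => F q) hg
  simpa using this

section fam

variable {ι : Type} [Fintype ι] (X : ι → 𝒱.Obj)

/-- The sum of the intersection forms. -/
noncomputable def fbil : (∀ i, W.H (X i)) →ₗ[W.K] (∀ i, W.H (X i)) →ₗ[W.K] W.K :=
  ∑ i, (bil W (X i)).compl₁₂ (LinearMap.proj i) (LinearMap.proj i)

lemma fbil_apply (x y : ∀ i, W.H (X i)) : fbil W X x y = ∑ i, W.tr (X i) (x i * y i) := by
  simp only [fbil, LinearMap.sum_apply, LinearMap.compl₁₂_apply, LinearMap.proj_apply, bil_apply]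

/-- The product with the divisors. -/
noncomputable def fL (D : ∀ i, (X i).Cycles) : Module.End W.K (∀ i, W.H (X i)) :=
  LinearMap.pi fun i => LinearMap.mulLeft W.K (W.cl _ (D i)) ∘ₗ LinearMap.proj i

variable {X}

lemma fL_apply (D : ∀ i, (X i).Cycles) (x : ∀ i, W.H (X i)) (i : ι) :
    fL W X D x i = W.cl _ (D i) * x i := rfl

lemma fL_pow_apply (D : ∀ i, (X i).Cycles) (n : ℕ) (x : ∀ i, W.H (X i)) (i : ι) :
    (fL W X D ^ n) x i = (LinearMap.mulLeft W.K (W.cl _ (D i)) ^ n) (x i) := by
  induction n with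
  | zero => rfl
  | succ n ih =>
    rw [pow_succ', pow_succ', Module.End.mul_apply, Module.End.mul_apply, fL_apply, ih]
    rfl

lemma fbil_L {D : ∀ i, (X i).Cycles} (hD : ∀ i, (X i).IsCyc 1 (D i)) (x y : ∀ i, W.H (X i)) :
    fbil W X (fL W X D x) y = fbil W X x (fL W X D y) := by
  rw [fbil_apply, fbil_apply]
  refine Finset.sum_congr rfl (fun i _ => ?_)
  rw [fL_apply, fL_apply, W.even_comm (W.cl_mem (hD i)), mul_assoc]

lemma fbil_L_pow {D : ∀ i, (X i).Cycles} (hD : ∀ i, (X i).IsCyc 1 (D i)) (n : ℕ)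
    (x y : ∀ i, W.H (X i)) :
    fbil W X ((fL W X D ^ n) x) y = fbil W X x ((fL W X D ^ n) y) := by
  induction n generalizing x y with
  | zero => rfl
  | succ n ih =>
    rw [pow_succ, Module.End.mul_apply, ih, fbil_L W hD, ← Module.End.mul_apply, ← pow_succ',
      ← pow_succ]

lemma fbil_comm {j : ℕ} {x : ∀ i, W.H (X i)} (hx : ∀ i, x i ∈ W.gr (X i) (2 * j))
    (y : ∀ i, W.H (X i)) : fbil W X x y = fbil W X y x := by
  rw [fbil_apply, fbil_apply]
  refine Finset.sum_congr rfl (fun i _ => ?_)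
  rw [W.even_comm (hx i)]

lemma fbil_nondeg {x : ∀ i, W.H (X i)} (h : ∀ y, fbil W X x y = 0) : x = 0 := by
  classical
  funext i
  apply W.nondeg
  intro c
  have h1 := h (Pi.single i c)
  rw [fbil_apply, Finset.sum_eq_single i] at h1
  · rwa [Pi.single_eq_same] at h1
  · intro j _ hj
    rw [Pi.single_eq_of_ne hj, mul_zero, map_zero]
  · intro h2
    exact absurd (Finset.mem_univ i) h2

variable (X)

/-- The families of algebraic classes of codimension `j`. -/
noncomputable def falg (j : ℕ) : Submodule ℚ (∀ i, W.H (X i)) where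
  carrier := {x | ∀ i, x i ∈ algClasses W (X i) j}
  add_mem' := fun hx hy i => alg_add (hx i) (hy i)
  zero_mem' := fun i => alg_zero j
  smul_mem' := fun q x hx i => by
    change q • x i ∈ _
    rw [qsmul]
    exact alg_smul q (hx i)

variable {X}

lemma mem_falg {j : ℕ} {x : ∀ i, W.H (X i)} :
    x ∈ falg W X j ↔ ∀ i, x i ∈ algClasses W (X i) j := Iff.rfl

lemma falg_gr {j : ℕ} {x : ∀ i, W.H (X i)} (hx : x ∈ falg W X j) (i : ι) :
    x i ∈ W.gr (X i) (2 * j) := alg_gr (hx i)

lemma falg_L {D : ∀ i, (X i).Cycles} (hD : ∀ i, (X i).IsCyc 1 (D i)) {j : ℕ}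
    {x : ∀ i, W.H (X i)} (hx : x ∈ falg W X j) : fL W X D x ∈ falg W X (j + 1) := by
  intro i
  obtain ⟨z, hz, hzx⟩ := hx i
  refine ⟨ops.mul (D i) z, ?_, ?_⟩
  · rw [add_comm]; exact ops.mul_mem (hD i) hz
  · rw [W.cl_mul, hzx]; rfl

lemma falg_L_pow {D : ∀ i, (X i).Cycles} (hD : ∀ i, (X i).IsCyc 1 (D i)) {j : ℕ} (n : ℕ)
    {x : ∀ i, W.H (X i)} (hx : x ∈ falg W X j) : (fL W X D ^ n) x ∈ falg W X (j + n) := by
  induction n with
  | zero => exact hx
  | succ n ih =>
    rw [pow_succ', Module.End.mul_apply, ← add_assoc]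
    exact falg_L W hD ih

variable (X)

/-- The families of rational multiples of the unit element. -/
noncomputable def cst : (ι → ℚ) →ₗ[ℚ] ∀ i, W.H (X i) where
  toFun s := fun i => (s i : W.K) • (1 : W.H (X i))
  map_add' s t := by
    funext i
    simp only [Pi.add_apply, Rat.cast_add, add_smul]
  map_smul' q s := by
    funext i
    change ((q * s i : ℚ) : W.K) • (1 : W.H (X i)) = q • ((s i : W.K) • (1 : W.H (X i)))
    rw [qsmul, Rat.cast_mul, mul_smul]

variable {X}

lemma cst_apply (s : ι → ℚ) (i : ι) : cst W X s i = (s i : W.K) • (1 : W.H (X i)) := rfl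

lemma cst_mem (s : ι → ℚ) : cst W X s ∈ falg W X 0 := by
  intro i
  refine ⟨s i • (X i).V.fundCycle, ((X i).V.fundCycle_mem).smul _, ?_⟩
  rw [W.cl_smul, W.cl_fund]
  rfl

/-- The form given by a retraction of the coefficient field. -/
noncomputable def qf (ret : W.K →ₗ[ℚ] ℚ) (D : ∀ i, (X i).Cycles) (n j j' : ℕ) :
    falg W X j →ₗ[ℚ] falg W X j' →ₗ[ℚ] ℚ :=
  LinearMap.mk₂ ℚ (fun x y => ret (fbil W X ((fL W X D ^ n) x) y))
    (fun x x' y => by
      simp only [Submodule.coe_add, map_add, LinearMap.add_apply])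
    (fun c x y => by
      have h1 : ((c • x : falg W X j) : ∀ i, W.H (X i)) = (c : W.K) • (x : ∀ i, W.H (X i)) := by
        funext i
        change c • (x : ∀ i, W.H (X i)) i = _
        rw [qsmul]; rfl
      rw [h1, map_smul, map_smul, LinearMap.smul_apply, smul_eq_mul]
      have h2 : (c : W.K) * fbil W X ((fL W X D ^ n) x) y = c • fbil W X ((fL W X D ^ n) x) y := by
        rw [Rat.smul_def]
      rw [h2, map_smul])
    (fun x y y' => by
      simp only [Submodule.coe_add, map_add])
    (fun c x y => by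
      have h1 : ((c • y : falg W X j') : ∀ i, W.H (X i)) = (c : W.K) • (y : ∀ i, W.H (X i)) := by
        funext i
        change c • (y : ∀ i, W.H (X i)) i = _
        rw [qsmul]; rfl
      rw [h1, map_smul, smul_eq_mul]
      have h2 : (c : W.K) * fbil W X ((fL W X D ^ n) x) y = c • fbil W X ((fL W X D ^ n) x) y := by
        rw [Rat.smul_def]
      rw [h2, map_smul])

lemma qf_apply (ret : W.K →ₗ[ℚ] ℚ) (D : ∀ i, (X i).Cycles) (n j j' : ℕ) (x : falg W X j)
    (y : falg W X j') : qf W ret D n j j' x y = ret (fbil W X ((fL W X D ^ n) x) y) := rfl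

/-- The Hodge index theorem for a family. -/
lemma hodge_fam {ret : W.K →ₗ[ℚ] ℚ} (hret : ∀ q : ℚ, ret (q : W.K) = q)
    {D : ∀ i, (X i).Cycles} (hD : ∀ i, (X i).IsCyc 1 (D i)) {n : ℕ} (hn : ∀ i, (X i).dim = n + 2)
    (hX : ∀ i, HodgeIndex W (X i) (D i)) :
    (∀ a ∈ falg W X 1, (∀ s : ι → ℚ, ret (fbil W X ((fL W X D ^ n) a) (fL W X D (cst W X s))) = 0) →
      a ≠ 0 → ret (fbil W X ((fL W X D ^ n) a) a) < 0) ∧
    ∀ s : ι → ℚ, s ≠ 0 →
      0 < ret (fbil W X ((fL W X D ^ n) (fL W X D (cst W X s))) (fL W X D (cst W X s))) := by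
  classical
  constructor
  · intro a ha h0 hne
    choose z hz hza using ha
    have e1 : ∀ i, ((X i).V.degCycle (ops.mul (z i) (divPow ops (D i) n (z i))) : W.K) =
        W.tr (X i) ((fL W X D ^ n) a i * a i) := by
      intro i
      have h1 : (X i).IsCyc (X i).dim (ops.mul (z i) (divPow ops (D i) n (z i))) := by
        have := ops.mul_mem (hz i) (divPow_mem (ops := ops) (hD i) n (hz i))
        rwa [show 1 + (1 + n) = (X i).dim by rw [hn]; ring] at this
      rw [← W.tr_cl h1, W.cl_mul, cl_divPow, hza, fL_pow_apply, W.even_comm (c := a i) (p := 1)]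
      rw [← hza i]
      exact W.cl_mem (hz i)
    have e2 : ∀ i, (X i).V.degCycle (divPow ops (D i) (n + 1) (z i)) = 0 := by
      intro i
      have h1 : (X i).IsCyc (X i).dim (divPow ops (D i) (n + 1) (z i)) := by
        have := divPow_mem (ops := ops) (hD i) (n + 1) (hz i)
        rwa [show 1 + (n + 1) = (X i).dim by rw [hn]; ring] at this
      have h2 := h0 (Pi.single i 1)
      rw [← fbil_L W hD, fbil_apply, Finset.sum_eq_single i] at h2
      · have h3 : W.tr (X i) (fL W X D ((fL W X D ^ n) a) i * cst W X (Pi.single i 1) i) =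
            (((X i).V.degCycle (divPow ops (D i) (n + 1) (z i)) : ℚ) : W.K) := by
          rw [← W.tr_cl h1, cl_divPow, cst_apply, Pi.single_eq_same, Rat.cast_one, one_smul,
            mul_one, ← Module.End.mul_apply, ← pow_succ', fL_pow_apply, hza]
        rw [h3, hret] at h2
        exact h2
      · intro j _ hj
        rw [cst_apply, Pi.single_eq_of_ne hj, Rat.cast_zero, zero_smul, mul_zero, map_zero]
      · intro h3; exact absurd (Finset.mem_univ i) h3
    have e3 : fbil W X ((fL W X D ^ n) a) a =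
        ((∑ i, (X i).V.degCycle (ops.mul (z i) (divPow ops (D i) n (z i))) : ℚ) : W.K) := by
      rw [fbil_apply, Rat.cast_sum]
      exact Finset.sum_congr rfl (fun i _ => (e1 i).symm)
    rw [e3, hret]
    have e4 : ∀ i, a i ≠ 0 → (X i).V.degCycle (ops.mul (z i) (divPow ops (D i) n (z i))) < 0 := by
      intro i hi
      have h1 := (hX i).2 (z i) (hz i) (by rw [hn]; exact e2 i) (by rwa [HomTriv, hza])
      rwa [hn] at h1
    have e5 : ∀ i, a i = 0 → (X i).V.degCycle (ops.mul (z i) (divPow ops (D i) n (z i))) = 0 := by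
      intro i hi
      have h1 := e1 i
      rw [hi, mul_zero, map_zero] at h1
      exact_mod_cast h1
    have e6 : ∃ i, a i ≠ 0 := by
      by_contra h
      push Not at h
      exact hne (funext h)
    obtain ⟨i, hi⟩ := e6
    refine Finset.sum_neg' (fun j _ => ?_) ⟨i, Finset.mem_univ i, e4 i hi⟩
    by_cases hj : a j = 0
    · exact (e5 j hj).le
    · exact (e4 j hj).le
  · intro s hs
    have e1 : fbil W X ((fL W X D ^ n) (fL W X D (cst W X s))) (fL W X D (cst W X s)) =
        ((∑ i, s i * s i * (X i).V.degCycle (divPow ops (D i) (n + 2) (X i).V.fundCycle) : ℚ) :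
          W.K) := by
      rw [← fbil_L W hD, ← Module.End.mul_apply (f := fL W X D ^ n), ← pow_succ,
        ← Module.End.mul_apply (f := fL W X D), ← pow_succ', fbil_apply, Rat.cast_sum]
      refine Finset.sum_congr rfl (fun i _ => ?_)
      have h1 : (X i).IsCyc (X i).dim (divPow ops (D i) (n + 2) (X i).V.fundCycle) := by
        have := divPow_mem (ops := ops) (hD i) (n + 2) (X i).V.fundCycle_mem
        rwa [show 0 + (n + 2) = (X i).dim by rw [hn]; ring] at this
      rw [fL_pow_apply, cst_apply, map_smul, smul_mul_assoc, mul_smul_comm, mul_one, map_smul,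
        map_smul, smul_eq_mul, smul_eq_mul, Rat.cast_mul, Rat.cast_mul, ← W.tr_cl h1, cl_divPow,
        W.cl_fund, mul_assoc]
    rw [e1, hret]
    have e2 : ∃ i, s i ≠ 0 := by
      by_contra h
      push Not at h
      exact hs (funext h)
    have e3 : ∀ i, 0 < (X i).V.degCycle (divPow ops (D i) (n + 2) (X i).V.fundCycle) := by
      intro i
      have h1 := (hX i).1
      rwa [hn] at h1
    obtain ⟨i, hi⟩ := e2
    refine Finset.sum_pos' (fun j _ => ?_) ⟨i, Finset.mem_univ i, ?_⟩
    · exact mul_nonneg (mul_self_nonneg _) (e3 j).le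
    · exact mul_pos (lt_of_le_of_ne (mul_self_nonneg _) (mul_self_ne_zero.2 hi).symm) (e3 i)

end fam

end Pool.Agent.Y150.Lift
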