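import Pool.Agent.Y150.Lift.Fam

/-!
# Orthogonal lifting: the special fibre (helper150)
-/

set_option autoImplicit false
set_option linter.unusedSectionVars false

open CategoryTheory AlgebraicGeometry

universe u v w

namespace Pool.Agent.Y150.Lift

open Pool.Agent.H914 Pool.Agent.H914.VarClass Pool.Agent.H914.VarClass.Obj
  Pool.Agent.H914.WeilCohomology

attribute [local instance] modQ

namespace SpecialFibre

variable {k : Type u} [Field k] {𝒱 : VarClass k} {ops : CycleOps 𝒱} {d : ℕ}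
  (F : SpecialFibre 𝒱 d) (W : WeilCohomology.{u, v} ops)

/-- The restriction map in cohomology. -/
noncomputable def rhoH : (∀ m, W.H (F.Y m)) →ₗ[W.K] ∀ t, W.H (F.Z t) :=
  LinearMap.pi fun t => (W.map (F.q t)).toLinearMap ∘ₗ LinearMap.proj (F.b t) -
    (W.map (F.p t)).toLinearMap ∘ₗ LinearMap.proj (F.a t)

/-- The Gysin map in cohomology. -/
noncomputable def gamH : (∀ t, W.H (F.Z t)) →ₗ[W.K] ∀ m, W.H (F.Y m) :=
  ∑ t, (LinearMap.single W.K (fun m => W.H (F.Y m)) (F.b t) ∘ₗ W.push (F.q t) -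
    LinearMap.single W.K (fun m => W.H (F.Y m)) (F.a t) ∘ₗ W.push (F.p t)) ∘ₗ LinearMap.proj t

/-- The classes of a family of cycles. -/
noncomputable def clF : F.Fam →+ ∀ m, W.H (F.Y m) where
  toFun z := fun m => W.cl _ (z m)
  map_zero' := by funext m; simp
  map_add' z z' := by funext m; simp

lemma clF_apply (z : F.Fam) (m : Fin F.r) : F.clF W z m = W.cl _ (z m) := rfl

lemma rhoH_apply (x : ∀ m, W.H (F.Y m)) (t : Fin F.s) :
    F.rhoH W x t = W.map (F.q t) (x (F.b t)) - W.map (F.p t) (x (F.a t)) := rfl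

lemma gamH_apply (y : ∀ t, W.H (F.Z t)) : F.gamH W y =
    ∑ t, (Pi.single (F.b t) (W.push (F.q t) (y t)) - Pi.single (F.a t) (W.push (F.p t) (y t))) := by
  simp only [gamH, LinearMap.sum_apply, LinearMap.comp_apply, LinearMap.sub_apply,
    LinearMap.proj_apply, LinearMap.single_apply]

variable {F W}

lemma cl_rho (z : F.Fam) (t : Fin F.s) : W.cl _ (F.rho ops z t) = F.rhoH W (F.clF W z) t := by
  rw [rho, map_sub, W.cl_pull, W.cl_pull, rhoH_apply, clF_apply, clF_apply]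

lemma compat_iff : F.Compat W ↔ ∀ t, W.map (F.p t) (W.cl _ (F.D (F.a t))) = W.cl _ (F.E t) ∧
    W.map (F.q t) (W.cl _ (F.D (F.b t))) = W.cl _ (F.E t) := by
  refine forall_congr' (fun t => ?_)
  rw [HomTriv, HomTriv, map_sub, map_sub, W.cl_pull, W.cl_pull, sub_eq_zero, sub_eq_zero]

lemma rho_L (hF : F.Compat W) (x : ∀ m, W.H (F.Y m)) :
    F.rhoH W (fL W F.Y F.D x) = fL W F.Z F.E (F.rhoH W x) := by
  funext t
  rw [rhoH_apply, fL_apply, fL_apply, fL_apply, rhoH_apply, map_mul (W.map (F.q t)),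
    map_mul (W.map (F.p t)), (compat_iff.1 hF t).1, (compat_iff.1 hF t).2, mul_sub]

lemma rho_L_pow (hF : F.Compat W) (n : ℕ) (x : ∀ m, W.H (F.Y m)) :
    F.rhoH W ((fL W F.Y F.D ^ n) x) = (fL W F.Z F.E ^ n) (F.rhoH W x) := by
  induction n with
  | zero => rfl
  | succ n ih =>
    rw [pow_succ', Module.End.mul_apply, rho_L hF, ih, ← Module.End.mul_apply, ← pow_succ']

lemma fbil_single_left (m : Fin F.r) (a : W.H (F.Y m)) (x : ∀ m, W.H (F.Y m)) :
    fbil W F.Y (Pi.single m a) x = W.tr _ (a * x m) := by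
  rw [fbil_apply, Finset.sum_eq_single m]
  · rw [Pi.single_eq_same]
  · intro j _ hj
    rw [Pi.single_eq_of_ne hj, zero_mul, map_zero]
  · intro h; exact absurd (Finset.mem_univ m) h

/-- The Gysin map is adjoint to the restriction map. -/
lemma fbil_gam (y : ∀ t, W.H (F.Z t)) (x : ∀ m, W.H (F.Y m)) :
    fbil W F.Y (F.gamH W y) x = fbil W F.Z y (F.rhoH W x) := by
  rw [gamH_apply, map_sum, LinearMap.sum_apply, fbil_apply]
  refine Finset.sum_congr rfl (fun t _ => ?_)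
  rw [map_sub, LinearMap.sub_apply, fbil_single_left, fbil_single_left, W.tr_push, W.tr_push,
    rhoH_apply, mul_sub, map_sub]

lemma rho_gr {j : ℕ} {x : ∀ m, W.H (F.Y m)} (hx : ∀ m, x m ∈ W.gr (F.Y m) j) (t : Fin F.s) :
    F.rhoH W x t ∈ W.gr (F.Z t) j :=
  Submodule.sub_mem _ (W.map_mem _ (hx _)) (W.map_mem _ (hx _))

lemma fbil_gam' {j : ℕ} {x : ∀ m, W.H (F.Y m)} (hx : ∀ m, x m ∈ W.gr (F.Y m) (2 * j))
    (y : ∀ t, W.H (F.Z t)) :
    fbil W F.Y x (F.gamH W y) = fbil W F.Z (F.rhoH W x) y := by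
  rw [fbil_comm W hx, fbil_gam, fbil_comm W (rho_gr hx)]

lemma gam_L (hF : F.Compat W) (y : ∀ t, W.H (F.Z t)) :
    F.gamH W (fL W F.Z F.E y) = fL W F.Y F.D (F.gamH W y) := by
  rw [← sub_eq_zero]
  apply fbil_nondeg W
  intro x
  rw [map_sub, LinearMap.sub_apply, fbil_gam, fbil_L W F.isCyc_D, fbil_gam, rho_L hF,
    fbil_L W F.isCyc_E, sub_self]

lemma gam_L_pow (hF : F.Compat W) (n : ℕ) (y : ∀ t, W.H (F.Z t)) :
    F.gamH W ((fL W F.Z F.E ^ n) y) = (fL W F.Y F.D ^ n) (F.gamH W y) := by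
  induction n with
  | zero => rfl
  | succ n ih =>
    rw [pow_succ', Module.End.mul_apply, gam_L hF, ih, ← Module.End.mul_apply, ← pow_succ']

lemma rho_falg {j : ℕ} {x : ∀ m, W.H (F.Y m)} (hx : x ∈ falg W F.Y j) :
    F.rhoH W x ∈ falg W F.Z j := by
  intro t
  obtain ⟨z, hz, hzx⟩ := hx (F.b t)
  obtain ⟨z', hz', hzx'⟩ := hx (F.a t)
  refine ⟨ops.pull (F.q t) z + (-1 : ℚ) • ops.pull (F.p t) z',
    (ops.pull_mem _ hz).add ((ops.pull_mem _ hz').smul _), ?_⟩
  rw [map_add, W.cl_smul, W.cl_pull, W.cl_pull, hzx, hzx', rhoH_apply]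
  push_cast
  rw [neg_smul, one_smul, sub_eq_add_neg]

lemma single_falg {j : ℕ} {m : Fin F.r} {a : W.H (F.Y m)} (ha : a ∈ algClasses W (F.Y m) j) :
    (Pi.single m a : ∀ m, W.H (F.Y m)) ∈ falg W F.Y j := by
  intro m'
  by_cases h : m' = m
  · subst h
    rw [Pi.single_eq_same]
    exact ha
  · rw [Pi.single_eq_of_ne h]
    exact alg_zero j

lemma single_isFam {j : ℕ} {m : Fin F.r} {z : (F.Y m).Cycles} (hz : (F.Y m).IsCyc j z) :
    F.IsFam j (F.single m z) := by
  intro m'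
  by_cases h : m' = m
  · subst h
    rw [single, Pi.single_eq_same]
    exact hz
  · rw [single, Pi.single_eq_of_ne h]
    exact SmVar.IsCyc.zero _ _

lemma clF_single (m : Fin F.r) (z : (F.Y m).Cycles) :
    F.clF W (F.single m z) = Pi.single m (W.cl _ z) := by
  funext m'
  rw [clF_apply, single]
  by_cases h : m' = m
  · subst h
    rw [Pi.single_eq_same, Pi.single_eq_same]
  · rw [Pi.single_eq_of_ne h, Pi.single_eq_of_ne h, map_zero]

lemma gam_falg {j : ℕ} {y : ∀ t, W.H (F.Z t)} (hy : y ∈ falg W F.Z j) :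
    F.gamH W y ∈ falg W F.Y (j + 1) := by
  rw [gamH_apply]
  refine Submodule.sum_mem _ (fun t _ => ?_)
  obtain ⟨z, hz, hzy⟩ := hy t
  refine Submodule.sub_mem _ (single_falg ?_) (single_falg ?_)
  · refine ⟨ops.push (F.q t) z, ops.push_mem _ hz ?_, ?_⟩
    · have h1 := F.dim_Y (F.b t)
      have h2 := F.dim_Z t
      omega
    · rw [W.cl_push, hzy]
  · refine ⟨ops.push (F.p t) z, ops.push_mem _ hz ?_, ?_⟩
    · have h1 := F.dim_Y (F.a t)
      have h2 := F.dim_Z t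
      omega
    · rw [W.cl_push, hzy]

lemma rho_cst (s : Fin F.r → ℚ) :
    F.rhoH W (cst W F.Y s) = cst W F.Z (fun t => s (F.b t) - s (F.a t)) := by
  funext t
  rw [rhoH_apply, cst_apply, cst_apply, cst_apply, map_smul, map_smul, map_one, map_one, ← sub_smul,
    Rat.cast_sub]

/-- The families of cycles of codimension `j`. -/
noncomputable def fam (F : SpecialFibre 𝒱 d) (j : ℕ) : Submodule ℚ F.Fam where
  carrier := {z | F.IsFam j z}
  add_mem' := fun hx hy m => (hx m).add (hy m)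
  zero_mem' := fun _ => SmVar.IsCyc.zero _ _
  smul_mem' := fun q _ hx m => (hx m).smul q

lemma mem_fam {j : ℕ} {z : F.Fam} : z ∈ F.fam j ↔ F.IsFam j z := Iff.rfl

lemma clF_mem {j : ℕ} {z : F.Fam} (hz : F.IsFam j z) : F.clF W z ∈ falg W F.Y j :=
  fun m => ⟨z m, hz m, rfl⟩

lemma exists_clF {j : ℕ} {x : ∀ m, W.H (F.Y m)} (hx : x ∈ falg W F.Y j) :
    ∃ z, F.IsFam j z ∧ F.clF W z = x := by
  choose z hz hzx using hx
  exact ⟨z, hz, funext hzx⟩

lemma clF_smul (q : ℚ) (z : F.Fam) : F.clF W (q • z) = (q : W.K) • F.clF W z := by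
  funext m
  exact W.cl_smul q (z m)

/-- The form is the intersection form of the restrictions. -/
lemma form_eq {j e : ℕ} {z z' : F.Fam} (hz : F.IsFam j z) (hz' : F.IsFam e z')
    (h : j + e + 1 = d) :
    (F.form ops z z' : W.K) = fbil W F.Z (F.rhoH W (F.clF W z)) (F.rhoH W (F.clF W z')) := by
  rw [form, Rat.cast_sum, fbil_apply]
  refine Finset.sum_congr rfl (fun t _ => ?_)
  have h0 : ∀ {j : ℕ} {z : F.Fam}, F.IsFam j z → (F.Z t).IsCyc j (F.rho ops z t) := by
    intro j z hz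
    have h2 : F.rho ops z t = ops.pull (F.q t) (z (F.b t)) +
        (-1 : ℚ) • ops.pull (F.p t) (z (F.a t)) := by
      rw [rho, neg_smul, one_smul, sub_eq_add_neg]
    rw [h2]
    exact (ops.pull_mem _ (hz _)).add ((ops.pull_mem _ (hz _)).smul _)
  have h1 : (F.Z t).IsCyc (F.Z t).dim (ops.mul (F.rho ops z t) (F.rho ops z' t)) := by
    have h2 := ops.mul_mem (h0 hz) (h0 hz')
    have h3 := F.dim_Z t
    rwa [show j + e = (F.Z t).dim by omega] at h2
  rw [← W.tr_cl h1, W.cl_mul, cl_rho, cl_rho]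

end SpecialFibre

end Pool.Agent.Y150.Lift
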