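import Pool.Agent.Y150.Lift.Solve

/-!
# Orthogonal lifting: alterations and the global problem (helper150)
-/

set_option autoImplicit false
set_option linter.unusedSectionVars false

open CategoryTheory AlgebraicGeometry

universe u v w

namespace Pool.Agent.Y150.Lift

open Pool.Agent.H914 Pool.Agent.H914.VarClass Pool.Agent.H914.VarClass.Obj
  Pool.Agent.H914.WeilCohomology SpecialFibre

/-- The local lifting property. -/
def LocalModel.Lifts (M : LocalModel.{w}) : Prop :=
  ∀ g ∈ M.triv, ∃ x, M.res x = g ∧ M.pair x = 0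

/-- The lifting property descends along alterations. -/
lemma Alteration.lifts {M' M : LocalModel.{w}} (α : Alteration M' M) (h : M'.Lifts) : M.Lifts := by
  intro g hg
  obtain ⟨x', hx', hp⟩ := h (α.pull g) (α.pull_triv g hg)
  refine ⟨α.deg⁻¹ • α.push x', ?_, ?_⟩
  · rw [map_smul, α.res_push, hx', α.push_pull, smul_smul, inv_mul_cancel₀ α.deg_ne_zero, one_smul]
  · apply LinearMap.ext
    intro y
    rw [map_smul, LinearMap.smul_apply, α.pair_push, hp]
    simp

/-- The lifting property is local. -/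
theorem GlobalModel.lifts {P : Type} (X : GlobalModel.{w} P) (h : ∀ v, (X.loc v).Lifts) :
    X.HasOrthogonalLifts := by
  classical
  intro g hg
  obtain ⟨x0, hx0⟩ := X.surjective g
  have hfin := X.finite x0 (by rw [hx0]; exact hg)
  have h1 : ∀ v, ∃ w, X.res w = 0 ∧ (X.loc v).pair (X.toLoc v x0 + X.toLoc v w) = 0 ∧
      ∀ v', v' ≠ v → X.toLoc v' w = 0 := by
    intro v
    obtain ⟨x, hx, hp⟩ := h v (X.toLocGen v g) (X.triv_toLoc v g hg)
    obtain ⟨w, hw1, hw2, hw3⟩ := X.vertical v (x - X.toLoc v x0)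
      (by rw [map_sub, hx, X.res_toLoc, hx0, sub_self])
    refine ⟨w, hw1, ?_, hw3⟩
    rw [hw2, add_sub_cancel, hp]
  choose w hw1 hw2 hw3 using h1
  refine ⟨x0 + ∑ v ∈ hfin.toFinset, w v, ?_, fun v => ?_⟩
  · rw [map_add, map_sum, Finset.sum_eq_zero (fun v _ => hw1 v), add_zero, hx0]
  · rw [map_add, map_sum]
    by_cases hv : v ∈ hfin.toFinset
    · rw [Finset.sum_eq_single_of_mem v hv (fun v' _ hv' => hw3 v' v (Ne.symm hv'))]
      exact hw2 v
    · rw [Finset.sum_eq_zero (fun v' hv' => hw3 v' v (by rintro rfl; exact hv hv')), add_zero]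
      rw [Set.Finite.mem_toFinset] at hv
      by_contra h3
      exact hv h3

variable {k : Type u} [Field k] {𝒱 : VarClass k} {ops : CycleOps 𝒱}
  {W : WeilCohomology.{u, v} ops} {d : ℕ} {F : SpecialFibre 𝒱 d}

/-- The lifting property of a semistable model. -/
lemma IsSemistable.lifts {M : LocalModel.{w}} {φ : FibreMaps F M} {j e : ℕ}
    (hS : IsSemistable W F M φ j e)
    (H : ∀ x, M.res x ∈ M.triv → ∃ u, F.IsFam j u ∧
      ∀ z, F.IsFam (e + 1) z → M.pair (x + φ.toC u) (φ.toU z) = 0) : M.Lifts := by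
  intro g hg
  obtain ⟨x0, rfl⟩ := M.surjective g
  obtain ⟨u, hu, hz⟩ := H x0 hg
  refine ⟨x0 + φ.toC u, ?_, ?_⟩
  · rw [map_add, hS.res_toC u hu, add_zero]
  · apply LinearMap.ext
    intro y
    obtain ⟨z, hz1, rfl⟩ := hS.span y
    rw [hz z hz1, LinearMap.zero_apply]

/-- **1-cycles.** -/
theorem HasAlteration.lifts {d : ℕ} (hd : 3 ≤ d) {M : LocalModel.{w}}
    (h : HasAlteration.{u, v, w} d M) : M.Lifts := by
  obtain ⟨k, _, 𝒱, ops, W, F, M', φ, ⟨α⟩, hS, hY, hZ⟩ := h
  obtain ⟨n, rfl⟩ : ∃ n, d = n + 3 := ⟨d - 3, by omega⟩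
  refine α.lifts (hS.lifts (fun x hx => ?_))
  exact solve_one rfl hS hY hZ x hx

end Pool.Agent.Y150.Lift
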